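import Pool.Agent.N396.ZK.Stm2

/-!
# ZK2/Fin: no large family of `d`-sets with small intersections (helper271 for helper396)
-/

set_option autoImplicit false

namespace Pool.Agent.N271.ZK

open Finset Classical
open Pool.Agent.N396.ZK

theorem pow_add_mul_le (a b : ℝ) (ha : 0 ≤ a) (hb : 0 ≤ b) (n : ℕ) :
    a ^ (n + 1) + (n + 1) * (b * a ^ n) ≤ (a + b) ^ (n + 1) := by
  induction n with
  | zero => simp
  | succ n ih =>
    have h1 : (a + b) * (a ^ (n + 1) + (n + 1) * (b * a ^ n)) ≤ (a + b) * (a + b) ^ (n + 1) :=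
      mul_le_mul_of_nonneg_left ih (by positivity)
    have h2 : 0 ≤ b * ((n + 1 : ℝ) * (b * a ^ n)) := by positivity
    calc a ^ (n + 1 + 1) + ((n + 1 : ℕ) + 1 : ℝ) * (b * a ^ (n + 1))
        ≤ (a + b) * (a ^ (n + 1) + (n + 1) * (b * a ^ n)) := by
          push_cast
          have e : (a + b) * (a ^ (n + 1) + (n + 1) * (b * a ^ n)) =
            a ^ (n + 1 + 1) + ((n : ℝ) + 1 + 1) * (b * a ^ (n + 1)) +
              b * ((n + 1 : ℝ) * (b * a ^ n)) := by ring
          rw [e]; linarith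
      _ ≤ (a + b) * (a + b) ^ (n + 1) := h1
      _ = (a + b) ^ (n + 1 + 1) := by ring

theorem es_insert {β : Type} (j : ℕ) (S : Finset β) (w : β → ℝ) (s : β) (hs : s ∉ S) :
    es (j + 1) (insert s S) w = es (j + 1) S w + w s * es j S w := by
  unfold es
  rw [Finset.powersetCard_succ_insert hs, Finset.sum_union, Finset.sum_image]
  · congr 1
    rw [Finset.mul_sum]
    refine Finset.sum_congr rfl fun Y hY => ?_
    rw [Finset.prod_insert]
    intro h
    exact hs ((Finset.mem_powersetCard.1 hY).1 h)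
  · intro Y hY Z hZ h
    have h1 : s ∉ Y := fun h => hs ((Finset.mem_powersetCard.1 hY).1 h)
    have h2 : s ∉ Z := fun h => hs ((Finset.mem_powersetCard.1 hZ).1 h)
    have h3 := congrArg (fun W => W.erase s) h
    simpa [Finset.erase_insert h1, Finset.erase_insert h2] using h3
  · rw [Finset.disjoint_left]
    intro Y hY hY'
    obtain ⟨Z, hZ, rfl⟩ := Finset.mem_image.1 hY'
    exact hs ((Finset.mem_powersetCard.1 hY).1 (Finset.mem_insert_self _ _))

theorem es_zero {β : Type} (S : Finset β) (w : β → ℝ) : es 0 S w = 1 := by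
  unfold es; simp

theorem es_nonneg {β : Type} (j : ℕ) (S : Finset β) (w : β → ℝ) (hw : ∀ y, 0 ≤ w y) :
    0 ≤ es j S w := Finset.sum_nonneg fun _ _ => Finset.prod_nonneg fun _ _ => hw _

theorem es_le {β : Type} (S : Finset β) (w : β → ℝ) (hw : ∀ y, 0 ≤ w y) :
    ∀ j : ℕ, (j.factorial : ℝ) * es j S w ≤ (∑ y ∈ S, w y) ^ j := by
  induction S using Finset.induction_on with
  | empty =>
    intro j
    rcases Nat.eq_zero_or_pos j with rfl | hj
    · simp [es_zero]
    · have : es j (∅ : Finset β) w = 0 := by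
        unfold es
        rw [Finset.powersetCard_eq_empty.2 (by simpa using hj)]
        simp
      rw [this, mul_zero]
      simp
  | insert s S hs ih =>
    intro j
    rcases j with _ | j
    · simp [es_zero]
    · rw [es_insert j S w s hs, Finset.sum_insert hs, add_comm (w s)]
      have h1 := ih (j + 1)
      have h2 := ih j
      have hE : 0 ≤ ∑ y ∈ S, w y := Finset.sum_nonneg fun _ _ => hw _
      refine le_trans ?_ (pow_add_mul_le _ _ hE (hw s) j)
      have h3 : w s * ((j.factorial : ℝ) * es j S w) ≤ w s * (∑ y ∈ S, w y) ^ j :=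
        mul_le_mul_of_nonneg_left h2 (hw s)
      have h4 : ((j : ℝ) + 1) * (w s * ((j.factorial : ℝ) * es j S w)) ≤
          ((j : ℝ) + 1) * (w s * (∑ y ∈ S, w y) ^ j) :=
        mul_le_mul_of_nonneg_left h3 (by positivity)
      calc ((j + 1).factorial : ℝ) * (es (j + 1) S w + w s * es j S w)
          = ((j + 1).factorial : ℝ) * es (j + 1) S w +
            ((j : ℝ) + 1) * (w s * ((j.factorial : ℝ) * es j S w)) := by
              rw [Nat.factorial_succ]; push_cast; ring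
        _ ≤ _ := add_le_add h1 h4

/-- the sum over all pairs is a sum of squares -/
theorem pairs_nonneg {α β : Type} (G : Finset α) (S : Finset β) (T : α → Finset β) (j : ℕ) :
    0 ≤ ∑ x ∈ G, ∑ x' ∈ G, es j S (ww S (T x) (T x')) := by
  set P : α → Finset β → ℝ := fun x Y =>
    ∏ y ∈ Y, ((if y ∈ T x then (1 : ℝ) else 0) - ((T x).card : ℝ) / S.card) with hP
  have h : ∑ x ∈ G, ∑ x' ∈ G, es j S (ww S (T x) (T x')) =
      ∑ Y ∈ S.powersetCard j, (∑ x ∈ G, P x Y) ^ 2 := by
    calc ∑ x ∈ G, ∑ x' ∈ G, es j S (ww S (T x) (T x'))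
        = ∑ x ∈ G, ∑ x' ∈ G, ∑ Y ∈ S.powersetCard j, P x Y * P x' Y := by
          refine Finset.sum_congr rfl fun x _ => Finset.sum_congr rfl fun x' _ => ?_
          unfold es
          refine Finset.sum_congr rfl fun Y _ => ?_
          rw [hP]
          simp only [ww]
          rw [Finset.prod_mul_distrib]
      _ = ∑ x ∈ G, ∑ Y ∈ S.powersetCard j, ∑ x' ∈ G, P x Y * P x' Y := by
          refine Finset.sum_congr rfl fun x _ => Finset.sum_comm
      _ = ∑ Y ∈ S.powersetCard j, ∑ x ∈ G, ∑ x' ∈ G, P x Y * P x' Y := Finset.sum_comm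
      _ = _ := by
          refine Finset.sum_congr rfl fun Y _ => ?_
          rw [sq, Finset.sum_mul_sum]
  rw [h]
  exact Finset.sum_nonneg fun _ _ => sq_nonneg _

theorem diag_sum {β : Type} (S T : Finset β) (d : ℕ) (hT : T ⊆ S) (hd : T.card = d) (h1 : 1 ≤ d) :
    ∑ y ∈ S, ww S T T y ≤ d := by
  have hS : (0 : ℝ) < S.card := by
    have : 1 ≤ S.card := le_trans h1 (hd ▸ Finset.card_le_card hT)
    exact_mod_cast this
  set p : ℝ := (T.card : ℝ) / S.card with hp
  have hpS : p * S.card = d := by rw [hp, div_mul_cancel₀ _ hS.ne', hd]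
  have hp0 : 0 ≤ p := by positivity
  have e1 : ∑ y ∈ S, (if y ∈ T then (1 : ℝ) else 0) = d := by
    rw [Finset.sum_ite_mem, Finset.inter_eq_right.2 hT]
    simp [hd]
  have e2 : ∀ y ∈ S, ww S T T y = (1 - 2 * p) * (if y ∈ T then (1 : ℝ) else 0) + p ^ 2 := by
    intro y _
    unfold ww
    rw [← hp]
    by_cases h : y ∈ T
    · simp [h]; ring
    · simp [h]; ring
  rw [Finset.sum_congr rfl e2, Finset.sum_add_distrib, ← Finset.mul_sum, e1, Finset.sum_const,
    nsmul_eq_mul]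
  have e3 : (S.card : ℝ) * p ^ 2 = p * d := by rw [← hpS]; ring
  rw [e3]
  have : 0 ≤ p * d := by positivity
  linarith

theorem fin (hlim : StmLim) : StmFin := by
  intro k M μ a hμ hLP
  obtain ⟨ha, hneg⟩ := hLP
  set f : ℕ → ℝ := fun X => ∑ j ∈ Icc 1 k, a j * ch μ j X with hf
  obtain ⟨X₀, hX₀, hmax⟩ := Finset.exists_max_image (range (M + 1)) f ⟨0, by simp⟩
  set c : ℝ := - f X₀ with hc
  have hc0 : 0 < c := by
    have := hneg X₀ (by simpa [Nat.lt_succ_iff] using hX₀)
    rw [hc]; exact neg_pos.2 this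
  have hfc : ∀ X ≤ M, f X ≤ -c := by
    intro X hX
    rw [hc, neg_neg]
    exact hmax X (by simpa [Nat.lt_succ_iff] using hX)
  set A : ℝ := ∑ j ∈ Icc 1 k, a j with hA
  have hA0 : 0 ≤ A := Finset.sum_nonneg fun j _ => ha j
  set δ : ℝ := c / (2 * (A + 1)) with hδ
  have hδ0 : 0 < δ := by positivity
  obtain ⟨K₁, hK₁, hl⟩ := hlim k M μ δ hμ hδ0
  refine ⟨K₁ + 1 + (4 * (A + 1) / c + 2), by positivity, ?_⟩
  intro α β G S T d hTS hTd hTT hKd hKG hμd
  have hB0 : 0 < 4 * (A + 1) / c := by positivity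
  have hd1 : (1 : ℝ) ≤ d := by linarith
  have hd1' : 1 ≤ d := by exact_mod_cast hd1
  have hdk : (1 : ℝ) ≤ (d : ℝ) ^ k := one_le_pow₀ hd1
  have hμd' : |(d : ℝ) ^ 2 / S.card - μ| ≤ 1 / K₁ := by
    refine hμd.trans ?_
    apply one_div_le_one_div_of_le hK₁
    linarith
  set F : α → α → ℝ := fun x x' =>
    ∑ j ∈ Icc 1 k, a j * ((j.factorial : ℝ) * es j S (ww S (T x) (T x'))) with hF
  -- (1)
  have h1 : 0 ≤ ∑ x ∈ G, ∑ x' ∈ G, F x x' := by
    have e : ∑ x ∈ G, ∑ x' ∈ G, F x x' = ∑ j ∈ Icc 1 k, a j * ((j.factorial : ℝ) *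
        ∑ x ∈ G, ∑ x' ∈ G, es j S (ww S (T x) (T x'))) := by
      calc ∑ x ∈ G, ∑ x' ∈ G, F x x'
          = ∑ x ∈ G, ∑ j ∈ Icc 1 k, ∑ x' ∈ G,
              a j * ((j.factorial : ℝ) * es j S (ww S (T x) (T x'))) := by
            refine Finset.sum_congr rfl fun x _ => Finset.sum_comm
        _ = ∑ j ∈ Icc 1 k, ∑ x ∈ G, ∑ x' ∈ G,
              a j * ((j.factorial : ℝ) * es j S (ww S (T x) (T x'))) := Finset.sum_comm
        _ = _ := by
            refine Finset.sum_congr rfl fun j _ => ?_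
            simp only [Finset.mul_sum]
    rw [e]
    refine Finset.sum_nonneg fun j _ => mul_nonneg (ha j) (mul_nonneg (by positivity) ?_)
    exact pairs_nonneg G S T j
  -- (2)
  have h2 : ∀ x ∈ G, ∀ x' ∈ G, x ≠ x' → F x x' ≤ -(c / 2) := by
    intro x hx x' hx' hne
    have hX := hTT x hx x' hx' hne
    have h3 : F x x' ≤ ∑ j ∈ Icc 1 k, a j * (ch μ j (T x ∩ T x').card + δ) := by
      refine Finset.sum_le_sum fun j hj => mul_le_mul_of_nonneg_left ?_ (ha j)
      have := hl β S (T x) (T x') d (hTS x hx) (hTS x' hx') (hTd x hx) (hTd x' hx') hX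
        (by linarith) hμd' j (Finset.mem_Icc.1 hj).2
      have := (abs_le.1 this).2
      linarith
    have h4 : ∑ j ∈ Icc 1 k, a j * (ch μ j (T x ∩ T x').card + δ) =
        f (T x ∩ T x').card + A * δ := by
      rw [hf, hA, Finset.sum_mul, ← Finset.sum_add_distrib]
      refine Finset.sum_congr rfl fun j _ => by ring
    have h5 := hfc _ hX
    have h6 : A * δ ≤ c / 2 := by
      rw [hδ, mul_div_assoc', div_le_div_iff₀ (by positivity) (by norm_num)]
      nlinarith
    linarith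
  -- (3)
  have h3 : ∀ x ∈ G, F x x ≤ A * (d : ℝ) ^ k := by
    intro x hx
    rw [hA, Finset.sum_mul]
    refine Finset.sum_le_sum fun j hj => mul_le_mul_of_nonneg_left ?_ (ha j)
    have hw : ∀ y, 0 ≤ ww S (T x) (T x) y := fun y => by
      unfold ww; exact mul_self_nonneg _
    refine (es_le S _ hw j).trans ?_
    have h4 : (∑ y ∈ S, ww S (T x) (T x) y) ^ j ≤ (d : ℝ) ^ j :=
      pow_le_pow_left₀ (Finset.sum_nonneg fun _ _ => hw _)
        (diag_sum S (T x) d (hTS x hx) (hTd x hx) hd1') j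
    exact h4.trans (pow_le_pow_right₀ hd1 (Finset.mem_Icc.1 hj).2)
  -- total
  have hGpos : (0 : ℝ) < G.card := by
    refine lt_of_lt_of_le ?_ hKG
    positivity
  have h4 : ∑ x ∈ G, ∑ x' ∈ G, F x x' ≤
      ∑ x ∈ G, (A * (d : ℝ) ^ k + ((G.card : ℝ) - 1) * (-(c / 2))) := by
    refine Finset.sum_le_sum fun x hx => ?_
    rw [← Finset.add_sum_erase G _ hx]
    refine add_le_add (h3 x hx) ?_
    have h5 : ∑ x' ∈ G.erase x, F x x' ≤ ∑ _x' ∈ G.erase x, (-(c / 2)) :=
      Finset.sum_le_sum fun x' hx' =>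
        h2 x hx x' (Finset.mem_of_mem_erase hx') (Finset.ne_of_mem_erase hx').symm
    refine h5.trans ?_
    rw [Finset.sum_const, nsmul_eq_mul, Finset.card_erase_of_mem hx,
      Nat.cast_sub (Finset.card_pos.2 ⟨x, hx⟩)]
    simp
  rw [Finset.sum_const, nsmul_eq_mul] at h4
  have h5 : 0 ≤ A * (d : ℝ) ^ k + ((G.card : ℝ) - 1) * (-(c / 2)) := by
    have := h1.trans h4
    exact nonneg_of_mul_nonneg_right this hGpos
  have h6 : (4 * (A + 1) / c + 2) * (d : ℝ) ^ k ≤ G.card := by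
    refine le_trans ?_ hKG
    apply mul_le_mul_of_nonneg_right _ (by positivity)
    linarith
  have h7 : (4 * (A + 1) / c + 2) * (d : ℝ) ^ k * (c / 2) ≤ G.card * (c / 2) :=
    mul_le_mul_of_nonneg_right h6 (by positivity)
  have h8 : (4 * (A + 1) / c + 2) * (d : ℝ) ^ k * (c / 2) =
      2 * (A + 1) * (d : ℝ) ^ k + c * (d : ℝ) ^ k := by
    field_simp
    ring
  have h9 : c / 2 ≤ c * (d : ℝ) ^ k := by nlinarith
  have h10 : 0 ≤ A * (d : ℝ) ^ k := by positivity
  nlinarith

end Pool.Agent.N271.ZK
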